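import Pool.Agent.Helper77.PPS.Goals

/-!
# Project PP (MP_fc6b1e_nt), packet PPS-P_CNT: consequences of Chebyshev's bound
-/

namespace Pool.Agent.Helper79.PPS

open Finset Real Pool.Agent.Helper77.PPS

theorem half_le_log_two : (1 : ℝ) / 2 ≤ log 2 := by
  have := Real.log_two_gt_d9
  linarith

section

variable {P : Type} {N : P → ℕ} {C : ℝ}

theorem Npos (h : PSys N C) (q : P) : (0 : ℝ) < N q := by
  have := h.two q
  have h2 : (2 : ℝ) ≤ (N q : ℝ) := by exact_mod_cast this
  linarith

theorem logNpos (h : PSys N C) (q : P) : 0 < log (N q) := by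
  have := h.two q
  have h2 : (2 : ℝ) ≤ (N q : ℝ) := by exact_mod_cast this
  exact log_pos (by linarith)

/-- A dyadic block. -/
theorem block (h : PSys N C) {y : ℝ} (hy : 2 ≤ y) (F : Finset P)
    (hF : ∀ q ∈ F, y < N q ∧ (N q : ℝ) ≤ 2 * y) : ∑ q ∈ F, 1 / (N q : ℝ) ≤ 2 * C / log y := by
  have hl : 0 < log y := log_pos (by linarith)
  have hy0 : 0 < y := by linarith
  have h1 : ∀ q ∈ F, 1 / (N q : ℝ) ≤ log (N q) / (y * log y) := by
    intro q hq
    obtain ⟨h2, -⟩ := hF q hq
    have h3 : log y ≤ log (N q) := log_le_log hy0 h2.le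
    calc 1 / (N q : ℝ) ≤ 1 / y := one_div_le_one_div_of_le hy0 h2.le
      _ = log y / (y * log y) := by field_simp
      _ ≤ log (N q) / (y * log y) := div_le_div_of_nonneg_right h3 (by positivity)
  refine (Finset.sum_le_sum h1).trans ?_
  rw [← Finset.sum_div, div_le_div_iff₀ (by positivity) hl]
  have h4 := h.cheb (2 * y) F (by linarith) fun q hq => (hF q hq).2
  calc (∑ q ∈ F, log (N q)) * log y ≤ (C * (2 * y)) * log y :=
        mul_le_mul_of_nonneg_right h4 hl.le
    _ = 2 * C * (y * log y) := by ring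

theorem part1 (h : PSys N C) {x : ℝ} (hx : 2 ≤ x) : ((pr N x).card : ℝ) ≤ 6 * C * (x / log x) := by
  classical
  have hC := h.nonneg
  have hx0 : 0 < x := by linarith
  have hlx : 0 < log x := log_pos (by linarith)
  have hs1 : 1 ≤ √x := by
    rw [Real.one_le_sqrt]
    linarith
  have hs0 : 0 < √x := by linarith
  have hlog : log x ≤ 2 * √x := by
    have h1 : log x = 2 * log (√x) := by
      rw [Real.log_sqrt hx0.le]
      ring
    have h2 := Real.log_le_sub_one_of_pos hs0
    rw [h1]
    linarith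
  have hsq : √x ≤ 2 * (x / log x) := by
    rw [← mul_div_assoc, le_div_iff₀ hlx]
    calc √x * log x ≤ √x * (2 * √x) := mul_le_mul_of_nonneg_left hlog hs0.le
      _ = 2 * x := by
        rw [mul_left_comm, Real.mul_self_sqrt hx0.le]
  set A := (pr N x).filter (fun q => (N q : ℝ) ≤ √x) with hA
  set B := (pr N x).filter (fun q => ¬ (N q : ℝ) ≤ √x) with hB
  have hcard : ((pr N x).card : ℝ) = A.card + B.card := by
    rw [hA, hB]
    exact_mod_cast (Finset.card_filter_add_card_filter_not _).symm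
  have hA1 : (A.card : ℝ) * log 2 ≤ C * √x := by
    have h1 := h.cheb (√x) A hs1 fun q hq => (Finset.mem_filter.1 hq).2
    have h2 : ∑ q ∈ A, log 2 ≤ ∑ q ∈ A, log (N q) := by
      refine Finset.sum_le_sum fun q _ ↦ log_le_log (by norm_num) ?_
      exact_mod_cast h.two q
    rw [Finset.sum_const, nsmul_eq_mul] at h2
    exact h2.trans h1
  have hA2 : (A.card : ℝ) ≤ 4 * C * (x / log x) := by
    have h1 : (A.card : ℝ) * (1 / 2) ≤ (A.card : ℝ) * log 2 :=
      mul_le_mul_of_nonneg_left half_le_log_two (Nat.cast_nonneg _)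
    have h2 : C * √x ≤ C * (2 * (x / log x)) := mul_le_mul_of_nonneg_left hsq hC
    nlinarith
  have hB1 : (B.card : ℝ) * (log x / 2) ≤ C * x := by
    have h1 := h.cheb x B (by linarith) fun q hq => (mem_pr h).1 (Finset.mem_filter.1 hq).1
    have h2 : ∑ q ∈ B, log x / 2 ≤ ∑ q ∈ B, log (N q) := by
      refine Finset.sum_le_sum fun q hq ↦ ?_
      have h3 : √x ≤ N q := (not_le.1 (Finset.mem_filter.1 hq).2).le
      have h4 := log_le_log hs0 h3
      rwa [Real.log_sqrt hx0.le] at h4
    rw [Finset.sum_const, nsmul_eq_mul] at h2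
    exact h2.trans h1
  have hB2 : (B.card : ℝ) ≤ 2 * C * (x / log x) := by
    rw [mul_div_assoc', le_div_iff₀ hlx]
    linarith
  rw [hcard]
  calc (A.card : ℝ) + B.card ≤ 4 * C * (x / log x) + 2 * C * (x / log x) := add_le_add hA2 hB2
    _ = 6 * C * (x / log x) := by ring

theorem part3 (h : PSys N C) {x : ℝ} (hx : 2 ≤ x) :
    ∑ q ∈ pr N x, log (N q) / N q ≤ 8 * C * log x := by
  classical
  have hC := h.nonneg
  have hx0 : 0 < x := by linarith
  have hlx : log 2 ≤ log x := log_le_log (by norm_num) hx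
  have hl2 := half_le_log_two
  set n := Nat.log 2 ⌊x⌋₊ with hn
  have hmap : ∀ q ∈ pr N x, Nat.log 2 (N q) ∈ Finset.range (n + 1) := by
    intro q hq
    rw [Finset.mem_range, Nat.lt_succ_iff, hn]
    exact Nat.log_mono_right (Nat.le_floor ((mem_pr h).1 hq))
  rw [← Finset.sum_fiberwise_of_maps_to hmap]
  have hfib : ∀ i ∈ Finset.range (n + 1),
      ∑ q ∈ pr N x with Nat.log 2 (N q) = i, log (N q) / N q ≤ 2 * C := by
    intro i _
    have hp : (0 : ℝ) < 2 ^ i := by positivity
    have h1 : ∀ q ∈ (pr N x).filter (fun q => Nat.log 2 (N q) = i),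
        log (N q) / N q ≤ log (N q) / 2 ^ i := by
      intro q hq
      have h2 := (Finset.mem_filter.1 hq).2
      have h3 : 2 ^ i ≤ N q := by
        rw [← h2]
        exact Nat.pow_log_le_self 2 (by have := h.two q; omega)
      refine div_le_div_of_nonneg_left (logNpos h q).le hp ?_
      exact_mod_cast h3
    refine (Finset.sum_le_sum h1).trans ?_
    rw [← Finset.sum_div, div_le_iff₀ hp]
    have h4 := h.cheb (2 ^ (i + 1)) ((pr N x).filter (fun q => Nat.log 2 (N q) = i))
      (one_le_pow₀ (by norm_num)) (by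
        intro q hq
        have h2 := (Finset.mem_filter.1 hq).2
        have h3 : N q < 2 ^ (i + 1) := by
          rw [← h2]
          exact Nat.lt_pow_succ_log_self (by norm_num) _
        exact_mod_cast h3.le)
    calc _ ≤ C * 2 ^ (i + 1) := h4
      _ = 2 * C * 2 ^ i := by ring
  refine (Finset.sum_le_sum hfib).trans ?_
  rw [Finset.sum_const, Finset.card_range, nsmul_eq_mul]
  have hnx : (n : ℝ) * log 2 ≤ log x := by
    have h1 : (2 : ℝ) ^ n ≤ x := by
      have h2 : 2 ^ n ≤ ⌊x⌋₊ := by
        rw [hn]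
        exact Nat.pow_log_le_self 2 (Nat.floor_pos.2 (by linarith)).ne'
      have h3 : ((2 ^ n : ℕ) : ℝ) ≤ (⌊x⌋₊ : ℝ) := by exact_mod_cast h2
      have h4 : (⌊x⌋₊ : ℝ) ≤ x := Nat.floor_le hx0.le
      push_cast at h3
      linarith
    have h5 := log_le_log (by positivity) h1
    rwa [Real.log_pow] at h5
  have hn1 : ((n + 1 : ℕ) : ℝ) ≤ 4 * log x := by
    have h1 : (n : ℝ) * (1 / 2) ≤ (n : ℝ) * log 2 :=
      mul_le_mul_of_nonneg_left hl2 (Nat.cast_nonneg _)
    push_cast
    linarith
  calc ((n + 1 : ℕ) : ℝ) * (2 * C) ≤ 4 * log x * (2 * C) :=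
        mul_le_mul_of_nonneg_right hn1 (by positivity)
    _ = 8 * C * log x := by ring

theorem blocks (h : PSys N C) {y : ℝ} (hy : 2 ≤ y) (I : ℕ) : ∀ F : Finset P,
    (∀ q ∈ F, y < N q ∧ (N q : ℝ) ≤ 2 ^ (I + 1) * y) →
    ∑ q ∈ F, 1 / (N q : ℝ) ≤ ∑ i ∈ Finset.range (I + 1), 2 * C / (log y + i * log 2) := by
  classical
  have hy0 : 0 < y := by linarith
  induction I with
  | zero =>
    intro F hF
    have h1 := block h hy F fun q hq => by
      have := hF q hq
      simpa using this
    simpa using h1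
  | succ I ih =>
    intro F hF
    rw [Finset.sum_range_succ, ← Finset.sum_filter_add_sum_filter_not F
      (fun q => (N q : ℝ) ≤ 2 ^ (I + 1) * y)]
    refine add_le_add ?_ ?_
    · refine ih _ fun q hq => ?_
      obtain ⟨h1, h2⟩ := Finset.mem_filter.1 hq
      exact ⟨(hF q h1).1, h2⟩
    · have h2y : 2 ≤ 2 ^ (I + 1) * y := by
        have : (1 : ℝ) ≤ 2 ^ (I + 1) := one_le_pow₀ (by norm_num)
        nlinarith
      have h1 := block h h2y (F.filter (fun q => ¬ (N q : ℝ) ≤ 2 ^ (I + 1) * y)) (by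
        intro q hq
        obtain ⟨h1, h2⟩ := Finset.mem_filter.1 hq
        refine ⟨not_le.1 h2, ?_⟩
        have h3 := (hF q h1).2
        calc (N q : ℝ) ≤ 2 ^ (I + 1 + 1) * y := h3
          _ = 2 * (2 ^ (I + 1) * y) := by ring)
      have h3 : log (2 ^ (I + 1) * y) = log y + ((I + 1 : ℕ) : ℝ) * log 2 := by
        rw [Real.log_mul (by positivity) hy0.ne', Real.log_pow]
        ring
      rwa [h3] at h1

theorem tele {a b : ℝ} (ha : 0 < a) (hb : 0 < b) (I : ℕ) :
    ∑ i ∈ Finset.range (I + 1), 1 / (a + i * b) ≤ 1 / a + (log (a + I * b) - log a) / b := by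
  induction I with
  | zero => simp
  | succ I ih =>
    rw [Finset.sum_range_succ]
    have hpos : 0 < a + (I : ℝ) * b := by positivity
    have hpos' : 0 < a + ((I + 1 : ℕ) : ℝ) * b := by positivity
    have h1 : 1 / (a + ((I + 1 : ℕ) : ℝ) * b) ≤
        (log (a + ((I + 1 : ℕ) : ℝ) * b) - log (a + I * b)) / b := by
      rw [le_div_iff₀ hb]
      have h2 := Real.log_le_sub_one_of_pos (div_pos hpos hpos')
      rw [Real.log_div hpos.ne' hpos'.ne'] at h2
      have h3 : (a + (I : ℝ) * b) / (a + ((I + 1 : ℕ) : ℝ) * b) - 1 =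
          -(1 / (a + ((I + 1 : ℕ) : ℝ) * b) * b) := by
        field_simp
        push_cast
        ring
      rw [h3] at h2
      linarith
    have h4 : (log (a + ((I + 1 : ℕ) : ℝ) * b) - log a) / b =
        (log (a + I * b) - log a) / b +
          (log (a + ((I + 1 : ℕ) : ℝ) * b) - log (a + I * b)) / b := by ring
    rw [h4]
    linarith

theorem part4 (h : PSys N C) {y x : ℝ} (hy : 2 ≤ y) (hyx : y ≤ x) :
    mw N (fun _ ↦ 1) y x ≤ 4 * C * (log (log x) - log (log y) + 1 / log y) := by
  classical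
  have hC := h.nonneg
  have hy0 : 0 < y := by linarith
  have hx0 : 0 < x := by linarith
  have hly : 0 < log y := log_pos (by linarith)
  have hlyx : log y ≤ log x := log_le_log hy0 hyx
  have hl2 := half_le_log_two
  have hl20 : 0 < log 2 := by linarith
  set I := ⌊(log x - log y) / log 2⌋₊ with hI
  have hI0 : 0 ≤ (log x - log y) / log 2 := div_nonneg (by linarith) hl20.le
  have hI1 : (I : ℝ) * log 2 ≤ log x - log y := by
    have h1 := Nat.floor_le hI0
    rwa [le_div_iff₀ hl20] at h1
  have hI2 : log x - log y < ((I : ℝ) + 1) * log 2 := by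
    have h1 := Nat.lt_floor_add_one ((log x - log y) / log 2)
    rwa [div_lt_iff₀ hl20] at h1
  have hx2 : x ≤ 2 ^ (I + 1) * y := by
    rw [← Real.log_le_log_iff hx0 (by positivity), Real.log_mul (by positivity) hy0.ne',
      Real.log_pow]
    push_cast
    linarith
  have h1 := blocks h hy I ((pr N x).filter (fun q ↦ y < N q)) (by
    intro q hq
    obtain ⟨h1, h2⟩ := Finset.mem_filter.1 hq
    exact ⟨h2, ((mem_pr h).1 h1).trans hx2⟩)
  have h2 : mw N (fun _ ↦ 1) y x = ∑ q ∈ (pr N x).filter (fun q ↦ y < N q), 1 / (N q : ℝ) := rfl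
  rw [h2]
  refine h1.trans ?_
  have h3 : ∑ i ∈ Finset.range (I + 1), 2 * C / (log y + i * log 2) =
      2 * C * ∑ i ∈ Finset.range (I + 1), 1 / (log y + i * log 2) := by
    rw [Finset.mul_sum]
    refine Finset.sum_congr rfl fun i _ => ?_
    ring
  rw [h3]
  have h4 := tele hly hl20 I
  have h5 : log (log y + I * log 2) ≤ log (log x) :=
    log_le_log (by positivity) (by linarith)
  have h6 : 0 ≤ log (log x) - log (log y) := by
    have := log_le_log hly hlyx
    linarith
  have h7 : (log (log y + I * log 2) - log (log y)) / log 2 ≤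
      2 * (log (log x) - log (log y)) := by
    rw [div_le_iff₀ hl20]
    nlinarith
  have h8 : 0 < 1 / log y := by positivity
  have h9 : ∑ i ∈ Finset.range (I + 1), 1 / (log y + i * log 2) ≤
      2 * (log (log x) - log (log y) + 1 / log y) := by linarith
  calc 2 * C * ∑ i ∈ Finset.range (I + 1), 1 / (log y + i * log 2)
      ≤ 2 * C * (2 * (log (log x) - log (log y) + 1 / log y)) :=
        mul_le_mul_of_nonneg_left h9 (by positivity)
    _ = 4 * C * (log (log x) - log (log y) + 1 / log y) := by ring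

end

theorem p_cnt : Pool.Agent.Helper77.PPS.P_CNT := by
  classical
  intro C
  refine ⟨8 * |C| + 1, by positivity, fun P N h => ?_⟩
  have hC := h.nonneg
  rw [abs_of_nonneg hC]
  refine ⟨fun x hx => ?_, fun y hy => ?_, fun x hx => ?_, fun y x hy hyx => ?_⟩
  · refine (part1 h hx).trans ?_
    have h1 : 0 ≤ x / log x := div_nonneg (by linarith) (log_pos (by linarith)).le
    exact mul_le_mul_of_nonneg_right (by linarith) h1
  · have hl : 0 < log y := log_pos (by linarith)
    have h1 := block h hy ((pr N (2 * y)).filter (fun q ↦ y < N q)) (by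
      intro q hq
      obtain ⟨h1, h2⟩ := Finset.mem_filter.1 hq
      exact ⟨h2, (mem_pr h).1 h1⟩)
    have h2 : mw N (fun _ ↦ 1) y (2 * y) =
        ∑ q ∈ (pr N (2 * y)).filter (fun q ↦ y < N q), 1 / (N q : ℝ) := rfl
    rw [h2]
    exact h1.trans (div_le_div_of_nonneg_right (by linarith) hl.le)
  · refine (part3 h hx).trans ?_
    exact mul_le_mul_of_nonneg_right (by linarith) (log_pos (by linarith)).le
  · refine (part4 h hy hyx).trans ?_
    have hly : 0 < log y := log_pos (by linarith)
    have h6 : 0 ≤ log (log x) - log (log y) := by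
      have := log_le_log hly (log_le_log (by linarith) hyx)
      linarith
    have h8 : 0 < 1 / log y := by positivity
    exact mul_le_mul_of_nonneg_right (by linarith) (by linarith)

end Pool.Agent.Helper79.PPS
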